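import Mathlib

/-!
A 4-form on the free module of rank 8 whose associated pairing on the second exterior power
is the sum of the E8 form and ten hyperbolic planes: data and computations.
-/

namespace Pool.Agent.H63.E8

open ExteriorAlgebra

def omTerms : List (ℤ × Fin 8 × Fin 8 × Fin 8 × Fin 8) :=
  [(1, 0, 1, 2, 3),
   (1, 0, 1, 2, 5),
   (-1, 0, 1, 2, 6),
   (-1, 0, 1, 3, 5),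
   (1, 0, 1, 3, 7),
   (-1, 0, 1, 4, 6),
   (1, 0, 1, 5, 6),
   (-1, 0, 2, 3, 4),
   (1, 0, 2, 3, 5),
   (-1, 0, 2, 4, 5),
   (1, 0, 2, 4, 6),
   (1, 0, 2, 6, 7),
   (1, 0, 3, 5, 6),
   (-1, 0, 4, 5, 6),
   (1, 0, 4, 5, 7),
   (1, 1, 2, 3, 4),
   (1, 1, 2, 3, 6),
   (-1, 1, 2, 4, 6),
   (1, 1, 2, 4, 7),
   (-1, 1, 3, 4, 5),
   (1, 1, 3, 4, 6),
   (-1, 1, 3, 5, 6),
   (1, 1, 5, 6, 7),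
   (1, 2, 3, 4, 5),
   (1, 2, 3, 5, 7),
   (-1, 2, 4, 5, 6),
   (1, 3, 4, 5, 6),
   (1, 3, 4, 6, 7)]

def prs : List (Fin 8 × Fin 8) :=
  [(0, 1), (0, 2), (0, 3), (0, 4), (0, 5), (0, 6), (0, 7), (1, 2), (1, 3), (1, 4), (1, 5), (1, 6), (1, 7), (2, 3), (2, 4), (2, 5), (2, 6), (2, 7), (3, 4), (3, 5), (3, 6), (3, 7), (4, 5), (4, 6), (4, 7), (5, 6), (5, 7), (6, 7)]

def uRows : List (List ℤ) :=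
  [[1, -1, 0, 0, 1, 0, 0, 0, -1, 0, -1, -2, 1, 0, 1, 2, -1, -1, -1, 1, -1, 0, 1, -1, 0, -1, 1, -2],
   [0, 0, 1, 0, 0, 1, -1, 0, 1, 0, 1, 0, 0, 0, 0, -1, 1, 0, 0, 0, 0, 1, -1, 1, 0, 0, 0, 1],
   [-1, -1, 0, -1, -2, 0, 1, -1, 1, 1, 0, 1, -1, 1, 0, -1, 2, -1, 1, -2, 0, 1, 0, 0, 0, 0, -1, 1],
   [0, 1, 0, 0, 1, -1, 0, 1, -1, -1, 0, 0, 0, 0, -1, 1, -2, 1, -1, 1, 1, -1, 1, 0, -1, 0, 1, -1],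
   [0, 0, 0, 0, 1, 0, 0, -1, 1, 0, 0, 0, 0, 0, 0, 0, 0, 0, 0, 0, -1, 0, 0, 0, 0, 0, 0, 0],
   [0, 0, -1, 1, -1, 1, 0, 0, -1, 0, -1, 0, 1, -1, 1, -1, 1, 0, 1, 0, 0, 0, -1, 0, 1, 1, -1, 1],
   [1, 1, 0, 0, 0, 0, 0, 0, 0, 0, 1, 0, 0, 0, 0, 0, 0, 0, -1, 0, 0, 0, 0, 0, 0, 0, 0, 0],
   [0, -1, 1, 0, 0, 0, -1, 0, 0, 0, -1, 0, 0, 1, 0, 1, 0, -1, 1, -1, 1, 0, 0, 0, 0, 0, 0, 0],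
   [0, 0, 0, 0, 0, 1, 0, 0, 0, 0, 0, 0, 0, 0, 0, 0, 0, 0, 0, 0, 0, 0, 0, 0, 0, 0, 0, 0],
   [0, 0, 0, 0, 0, 0, 1, 0, 0, 0, 0, 0, 0, 0, 0, 0, 0, 0, 0, 0, 0, 0, 0, 0, 0, 0, 0, 0],
   [0, 1, 0, 0, 0, 0, 0, 0, 0, 0, 0, 0, 0, 0, 0, 0, 0, 0, 0, 0, 0, 0, 0, 0, 0, 0, 0, 0],
   [0, 0, 0, 1, 0, 0, 0, 0, 0, 0, 0, 0, 0, 0, 0, 0, 0, 0, 0, 0, 0, 0, 0, 0, 0, 0, 0, 0],
   [0, 0, 0, 0, 0, 0, 0, -1, 1, 0, 0, 0, 0, 0, 0, 0, 0, 0, 0, 0, 0, 0, 0, 0, 0, 0, 0, 0],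
   [0, 1, 0, 0, 0, 0, 0, 0, 0, 0, 0, 0, 0, 0, 0, 0, 0, 0, 0, 0, 1, -1, 0, 0, 0, 0, 0, 0],
   [0, 0, 1, 0, 0, 0, 0, 0, 0, 0, 0, 0, 0, 0, 0, 0, 0, 0, 0, 0, 0, 0, 0, 0, 0, 0, 0, 0],
   [0, 0, -1, 1, 0, 0, 0, 1, 0, 0, 1, 0, 0, -1, 0, -1, 0, 1, 0, 1, -1, 0, -1, 0, 1, 0, 0, 0],
   [-1, -1, 0, 0, -1, 0, 0, 1, 0, 1, 1, 0, -1, 0, 0, 0, 0, 0, 1, 0, 0, 0, 0, 0, 1, -1, 0, 0],
   [0, 1, -1, 1, 0, 1, 0, -1, 0, -1, 0, 0, 1, 0, 0, -1, 1, 0, 0, 0, 0, 0, 0, 0, 0, 1, 0, 1],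
   [0, 0, 0, 0, 0, 0, 0, 0, 0, -1, 0, 0, 0, 0, 0, 0, 0, 0, 0, 0, 0, 0, 0, 0, 0, 0, 0, 0],
   [0, 0, 0, 0, 0, 0, 0, 1, 0, 0, 0, 0, 0, 0, 0, 0, 0, 0, 0, 0, 0, 0, 0, 0, 0, 0, 0, 0],
   [0, 0, 0, 0, 0, 0, 0, 0, 0, 0, -1, 0, 0, 0, 0, 0, 0, 0, 0, 0, 0, 0, 0, 0, 0, 0, 0, 0],
   [0, 0, 0, 0, 0, 0, 0, 0, 0, 0, 0, 0, 0, -1, 0, 0, 0, 0, 0, 0, 0, 0, 0, 0, 0, 0, 0, 0],
   [0, 0, 0, 0, -1, 0, 1, 0, 0, 0, 0, 0, 0, 0, 0, 0, 0, 0, 0, 0, 0, 0, 0, 0, 0, 0, 0, 0],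
   [-1, 0, 0, 0, 0, 0, 0, 0, 0, 0, 0, 0, 0, 0, 0, 0, 0, 0, 0, 0, 0, 0, 0, 0, 0, 0, 0, 0],
   [0, 0, 0, 0, 0, 0, 0, 0, -1, 0, 0, 0, 0, 0, 0, 0, 0, 0, 0, 0, 0, 0, 0, 0, 0, 1, 0, 0],
   [-1, 0, 0, -1, 0, 0, 0, -1, 0, 0, -1, 0, 0, 1, -1, 1, 0, -1, 0, -1, 1, 0, 1, 0, -1, 1, 0, 0],
   [0, 1, 0, 0, 1, 0, 0, -1, 0, -1, -1, 0, 1, 0, 0, 0, -1, 0, -1, 0, 0, 0, 1, 0, -1, 1, 0, 0],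
   [1, 0, 1, 0, 1, 0, -1, 1, -1, 1, -1, 0, 0, 0, 0, 1, -2, 0, 0, 1, 1, -1, 0, -1, 0, 0, 0, -1]]

def mRows : List (List ℤ) :=
  [[0, 0, 0, 0, 0, 0, 0, 0, 0, 0, 0, 0, 0, 0, 0, 1, 0, 1, 0, 0, 0, 1, 0, -1, 0, 0, 0, 1],
   [0, 0, 0, 0, 0, 0, 0, 0, 0, 0, -1, 0, -1, 0, 0, 0, 0, 0, -1, 0, 0, 0, 0, 0, 1, 0, 1, 1],
   [0, 0, 0, 0, 0, 0, 0, 0, 0, 0, 0, 0, -1, 0, 1, 0, 0, 0, 0, 0, 0, 0, 0, 0, 0, 1, 1, 0],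
   [0, 0, 0, 0, 0, 0, 0, 0, 0, 0, 0, 1, 0, -1, 0, 0, 0, -1, 0, 0, 0, 0, 0, 0, 0, 0, 1, 0],
   [0, 0, 0, 0, 0, 0, 0, 1, 0, 0, 0, 0, 0, 0, 0, 0, 0, -1, 0, 0, -1, -1, 0, 0, -1, 0, 0, 1],
   [0, 0, 0, 0, 0, 0, 0, 0, 0, -1, 0, 0, -1, 0, 0, 0, 0, -1, 0, 1, 0, 0, 0, 0, 0, 0, -1, 0],
   [0, 0, 0, 0, 0, 0, 0, 1, 1, 0, 0, 1, 0, 0, 1, 1, 1, 0, 0, 1, 0, 0, 1, 0, 0, 1, 0, 0],
   [0, 0, 0, 0, 1, 0, 1, 0, 0, 0, 0, 0, 0, 0, 0, 0, 0, 0, 0, 0, 1, 1, 0, 0, 1, 0, 0, 0],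
   [0, 0, 0, 0, 0, 0, 1, 0, 0, 0, 0, 0, 0, 0, 0, 0, -1, -1, 0, 0, 0, 0, -1, 0, 0, 0, 1, 1],
   [0, 0, 0, 0, 0, -1, 0, 0, 0, 0, 0, 0, 0, 0, 0, 0, 0, -1, 0, 1, 0, 0, 0, 0, 0, 0, 0, 1],
   [0, -1, 0, 0, 0, 0, 0, 0, 0, 0, 0, 0, 0, 0, 0, 0, 0, 0, -1, 0, 0, -1, 0, 0, 0, 0, 0, 1],
   [0, 0, 0, 1, 0, 0, 1, 0, 0, 0, 0, 0, 0, 1, 0, 0, 0, 0, 0, 0, 0, -1, 0, 0, -1, 0, -1, 0],
   [0, -1, -1, 0, 0, -1, 0, 0, 0, 0, 0, 0, 0, 1, 1, 0, 0, 0, 0, 1, 1, 0, 0, 1, 0, 1, 0, 0],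
   [0, 0, 0, -1, 0, 0, 0, 0, 0, 0, 0, 1, 1, 0, 0, 0, 0, 0, 0, 0, 0, 0, 0, 0, 1, 0, 1, 0],
   [0, 0, 1, 0, 0, 0, 1, 0, 0, 0, 0, 0, 1, 0, 0, 0, 0, 0, 0, 0, 0, -1, 0, 0, 0, -1, 0, 1],
   [1, 0, 0, 0, 0, 0, 1, 0, 0, 0, 0, 0, 0, 0, 0, 0, 0, 0, 0, 0, 0, -1, 0, 1, 0, 0, 0, 0],
   [0, 0, 0, 0, 0, 0, 1, 0, -1, 0, 0, 0, 0, 0, 0, 0, 0, 0, 0, 0, 0, 0, -1, 0, -1, 0, 0, 0],
   [1, 0, 0, -1, -1, -1, 0, 0, -1, -1, 0, 0, 0, 0, 0, 0, 0, 0, 1, 1, 0, 0, 0, 1, 0, 0, 0, 0],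
   [0, -1, 0, 0, 0, 0, 0, 0, 0, 0, -1, 0, 0, 0, 0, 0, 0, 1, 0, 0, 0, 0, 0, 0, 0, 0, 1, 1],
   [0, 0, 0, 0, 0, 1, 1, 0, 0, 1, 0, 0, 1, 0, 0, 0, 0, 1, 0, 0, 0, 0, 0, 0, -1, 0, 0, 0],
   [0, 0, 0, 0, -1, 0, 0, 1, 0, 0, 0, 0, 1, 0, 0, 0, 0, 0, 0, 0, 0, 0, 0, 0, -1, 0, 0, 0],
   [1, 0, 0, 0, -1, 0, 0, 1, 0, 0, -1, -1, 0, 0, -1, -1, 0, 0, 0, 0, 0, 0, 1, 1, 0, 0, 0, 0],
   [0, 0, 0, 0, 0, 0, 1, 0, -1, 0, 0, 0, 0, 0, 0, 0, -1, 0, 0, 0, 0, 1, 0, 0, 0, 0, 0, 1],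
   [-1, 0, 0, 0, 0, 0, 0, 0, 0, 0, 0, 0, 1, 0, 0, 1, 0, 1, 0, 0, 0, 1, 0, 0, 0, 0, -1, 0],
   [0, 1, 0, 0, -1, 0, 0, 1, 0, 0, 0, -1, 0, 1, 0, 0, -1, 0, 0, -1, -1, 0, 0, 0, 0, 1, 0, 0],
   [0, 0, 1, 0, 0, 0, 1, 0, 0, 0, 0, 0, 1, 0, -1, 0, 0, 0, 0, 0, 0, 0, 0, 0, 1, 0, 0, 0],
   [0, 1, 1, 1, 0, -1, 0, 0, 1, 0, 0, -1, 0, 1, 0, 0, 0, 0, 1, 0, 0, 0, 0, -1, 0, 0, 0, 0],
   [1, 1, 0, 0, 1, 0, 0, 0, 1, 1, 1, 0, 0, 0, 1, 0, 0, 0, 1, 0, 0, 0, 1, 0, 0, 0, 0, 0]]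

def nRows : List (List ℤ) :=
  [[0, 0, 0, 0, 0, 0, 0, 0, 0, 0, 0, -1, 0, 0, 0, 0, 0, 0, 0, 0, 0, 0, 0, 0, 0, 0, 0, 0],
   [0, 0, 0, 0, 0, 0, 0, 0, 0, 0, 0, -2, -1, 0, 0, -1, -1, -1, 0, 0, 0, 0, -1, 0, -1, 0, 0, 1],
   [0, 0, 0, 0, 0, 0, 0, 0, 0, 0, 0, 1, 0, 0, 0, -1, 0, -1, 0, 0, 0, 0, 0, 0, 0, 0, 0, -1],
   [0, 0, 0, 0, 0, 0, 0, 0, 0, 0, 0, 1, 1, 0, 0, 1, 1, 2, 0, 0, 1, 1, 1, 0, 1, 0, 0, -1],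
   [0, 0, 0, 0, 0, 0, 0, 0, 0, 0, 0, 0, -1, 0, 0, 0, -1, -2, 0, 0, -2, -2, -1, 0, -1, 0, 1, 2],
   [0, 0, 0, 0, 0, 0, 0, 0, 0, 0, 0, 0, 1, 0, 0, 0, 1, 1, 1, 1, 1, 1, 1, 1, 0, 0, -2, -2],
   [0, 0, 0, 0, 0, 0, 0, 0, 0, 0, 0, 0, -1, 0, 0, 1, 0, 0, -2, 0, 0, 0, 0, -1, 1, 0, 0, 2],
   [0, 0, 0, 0, 0, 0, 0, 0, 0, 0, 0, 0, 1, 0, 0, -1, -1, 0, 1, -2, 0, 0, -1, 0, 0, 0, 2, -1],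
   [0, 0, 0, 0, 0, 0, 0, 0, 0, -1, 0, 0, -1, 0, 0, 0, 0, -1, 0, 1, 0, 0, 0, 0, 0, 0, -1, 0],
   [0, 0, 0, 0, 0, 0, 0, 1, 1, 0, 0, 1, 0, 0, 1, 1, 1, 0, 0, 1, 0, 0, 1, 0, 0, 1, 0, 0],
   [0, 0, 0, 0, 0, 0, 0, 0, 0, 0, -1, 0, -1, 0, 0, 0, 0, 0, -1, 0, 0, 0, 0, 0, 1, 0, 1, 1],
   [0, 0, 0, 0, 0, 0, 0, 0, 0, 0, 0, 1, 0, -1, 0, 0, 0, -1, 0, 0, 0, 0, 0, 0, 0, 0, 1, 0],
   [0, 0, 0, 0, -1, 0, 0, 0, 0, 0, 0, 0, 0, 0, 0, 0, -1, -1, 0, 0, -1, -1, -1, 0, -1, 0, 1, 1],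
   [-1, 0, 0, 0, 0, 0, 0, 0, 0, 0, 0, 1, 0, 0, 1, 1, 0, 0, -1, 0, 0, 0, -1, -1, 0, 0, 1, 1],
   [0, 0, 0, 0, 0, 0, 0, 0, 0, 0, 0, 0, -1, 0, 1, 0, 0, 0, 0, 0, 0, 0, 0, 0, 0, 1, 1, 0],
   [0, 0, 0, 0, 0, 0, 0, 0, 0, 0, 0, -1, 0, 0, -1, 0, 0, 0, 0, 0, 0, 0, 0, 0, 0, 0, -1, 0],
   [0, 0, 0, 0, 0, 0, 0, 0, 0, 0, 0, -1, 0, 0, 0, -1, -1, 0, 0, -1, 0, 0, 0, 0, 0, 0, 0, 0],
   [0, 0, 0, 0, 0, 0, 0, 0, 0, 0, 0, 1, 0, 0, 0, 0, 0, -1, 0, 1, 0, 0, 0, 0, 0, 0, 0, 0],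
   [0, 0, 0, 0, 0, 1, 0, 0, 0, 0, 0, 0, 0, 0, 0, 0, 0, 1, 0, -1, 0, 0, 0, 0, 0, 0, 0, -1],
   [0, 0, 0, 0, 1, 0, 1, 0, 0, 0, 0, 0, 0, 0, 0, 0, 0, 0, 0, 0, 1, 1, 0, 0, 1, 0, 0, 0],
   [0, 1, 0, 0, 0, 0, 0, 0, 0, 0, 0, 0, 0, 0, 0, 0, 0, 0, 1, 0, 0, 1, 0, 0, 0, 0, 0, -1],
   [0, 0, 0, 1, 0, 0, 0, 0, 0, 0, 0, -1, -1, 0, 0, 0, 0, 0, 0, 0, 0, 0, 0, 0, -1, 0, -1, 0],
   [0, 0, 0, 0, 0, 0, 0, 0, 1, 0, 0, 1, 0, 0, 1, 1, 1, 1, 0, 1, 1, 1, 1, 0, 1, 1, 0, -1],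
   [0, 0, 0, 0, 0, 0, 0, 0, 0, 0, 0, 0, 0, 0, 0, -1, 0, -1, 0, 0, 0, -1, 0, 1, 0, 0, 0, -1],
   [0, 0, 1, 0, 0, 0, 0, 0, 0, 0, 0, 0, 1, 0, -1, 0, 1, 1, 0, 0, 0, 0, 1, 0, 1, 0, -1, -1],
   [0, 0, 0, 0, 0, 0, 0, 0, 0, 0, 0, 1, 1, 0, -1, -1, 0, -1, 0, 0, 0, 0, 0, 1, 1, 0, 0, -2],
   [0, 0, 0, 0, 0, 0, 0, 0, 0, 0, 0, 1, 0, 0, 0, 0, 0, -1, 0, 1, 0, 0, 1, 1, 1, 0, 0, 0],
   [0, 0, 0, 0, 0, 0, 0, 0, 0, 0, 0, 0, 0, 0, 0, 0, 0, 0, 0, 0, 0, 0, 0, -1, 0, 0, 1, 1]]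

def e8inv : List (List ℤ) :=
  [[4, 5, 7, 10, 8, 6, 4, 2],
   [5, 8, 10, 15, 12, 9, 6, 3],
   [7, 10, 14, 20, 16, 12, 8, 4],
   [10, 15, 20, 30, 24, 18, 12, 6],
   [8, 12, 16, 24, 20, 15, 10, 5],
   [6, 9, 12, 18, 15, 12, 8, 4],
   [4, 6, 8, 12, 10, 8, 6, 3],
   [2, 3, 4, 6, 5, 4, 3, 2]]

/-- the sign of the order of two numbers -/
def sg (a b : ℕ) : ℤ := if a < b then 1 else if b < a then -1 else 0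

/-- product of all order signs of a list -/
def sgnL : List (Fin 8) → ℤ
  | [] => 1
  | a :: l => (l.map (fun b => sg a.val b.val)).prod * sgnL l

variable {M : Type} [AddCommGroup M]

/-- the monomial in the generators of the exterior algebra given by a word -/
noncomputable def mon (x : Fin 8 → M) (l : List (Fin 8)) : ExteriorAlgebra ℤ M :=
  (l.map (fun k => ι ℤ (x k))).prod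

lemma mon_append (x : Fin 8 → M) (l m : List (Fin 8)) : mon x (l ++ m) = mon x l * mon x m := by
  simp [mon]

lemma mon_ofFn (x : Fin 8 → M) {n : ℕ} (f : Fin n → Fin 8) :
    mon x (List.ofFn f) = ιMulti ℤ n (fun k => x (f k)) := by
  rw [ιMulti_apply, mon, List.map_ofFn]
  rfl

lemma sgnL_ofFn : ∀ (n : ℕ) (f : Fin n → Fin 8),
    sgnL (List.ofFn f) = ∏ i, ∏ j ∈ Finset.Ioi i, sg (f i).val (f j).val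
  | 0, f => by simp [sgnL]
  | n + 1, f => by
    rw [List.ofFn_succ, sgnL, List.map_ofFn, List.prod_ofFn, sgnL_ofFn n, Fin.prod_univ_succ,
      Fin.prod_Ioi_zero]
    simp_rw [Fin.prod_Ioi_succ]
    rfl

lemma sgnL_perm (σ : Equiv.Perm (Fin 8)) : sgnL (List.ofFn σ) = (σ.sign : ℤ) := by
  rw [Equiv.Perm.sign_eq_prod_prod_Ioi, sgnL_ofFn]
  rw [Units.coe_prod]
  refine Finset.prod_congr rfl fun i _ => ?_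
  rw [Units.coe_prod]
  refine Finset.prod_congr rfl fun j hj => ?_
  have hij : i ≠ j := (Finset.mem_Ioi.mp hj).ne
  have hne : σ i ≠ σ j := fun h => hij (σ.injective h)
  unfold sg
  rcases lt_or_gt_of_ne hne with h | h
  · rw [if_pos h, if_pos (by exact_mod_cast h)]; rfl
  · rw [if_neg (not_lt.mpr h.le), if_neg (by exact_mod_cast (not_lt.mpr h.le)),
      if_pos (by exact_mod_cast h)]; rfl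

lemma sgnL_not_inj (f : Fin 8 → Fin 8) (hf : ¬ Function.Injective f) :
    sgnL (List.ofFn f) = 0 := by
  rw [sgnL_ofFn]
  simp only [Function.Injective, not_forall] at hf
  obtain ⟨a, b, hab, hne⟩ := hf
  wlog hlt : a < b generalizing a b with H
  · exact H b a hab.symm (Ne.symm hne) (lt_of_le_of_ne (not_lt.mp hlt) (Ne.symm hne))
  refine Finset.prod_eq_zero (Finset.mem_univ a) ?_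
  refine Finset.prod_eq_zero (Finset.mem_Ioi.mpr hlt) ?_
  simp [sg, hab]

lemma mon_eight (x : Fin 8 → M) (f : Fin 8 → Fin 8) :
    mon x (List.ofFn f) = sgnL (List.ofFn f) • ιMulti ℤ 8 x := by
  rw [mon_ofFn]
  by_cases hf : Function.Injective f
  · have hb : Function.Bijective f := Finite.injective_iff_bijective.mp hf
    let σ : Equiv.Perm (Fin 8) := Equiv.ofBijective f hb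
    have hσ : f = σ := rfl
    rw [hσ, sgnL_perm]
    exact (ιMulti ℤ 8 (M := M)).map_perm x σ
  · rw [sgnL_not_inj f hf, zero_smul]
    refine AlternatingMap.map_eq_zero_of_not_injective _ _ fun h => hf ?_
    intro a b hab
    apply h
    simp only [hab]

/-- the words of length 8 -/
lemma mon_word (x : Fin 8 → M) (l : List (Fin 8)) (hl : l.length = 8) :
    mon x l = sgnL l • ιMulti ℤ 8 x := by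
  have h : l = List.ofFn (fun i : Fin 8 => l.get (i.cast hl.symm)) := by
    apply List.ext_get
    · simp [hl]
    · intro n h1 h2
      simp only [List.get_eq_getElem, List.getElem_ofFn]
      rfl
  rw [h]
  exact mon_eight x _

/-- the 4-form -/
noncomputable def om (x : Fin 8 → M) : ExteriorAlgebra ℤ M :=
  (omTerms.map (fun t => t.1 • mon x [t.2.1, t.2.2.1, t.2.2.2.1, t.2.2.2.2])).sum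

/-- the a-th pair of indices -/
def pr (a : Fin 28) : Fin 8 × Fin 8 := prs.getD a.val (0, 0)

/-- coefficients of the new basis vectors -/
def Pm (i a : Fin 28) : ℤ := (uRows.getD i.val []).getD a.val 0

/-- the Gram matrix in the standard basis -/
def Mm (a b : Fin 28) : ℤ := (mRows.getD a.val []).getD b.val 0

/-- intermediate product -/
def Nm (i b : Fin 28) : ℤ := (nRows.getD i.val []).getD b.val 0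

/-- the coefficient of a product of two pairs with the 4-form -/
def pairCoeff (a b : Fin 8 × Fin 8) : ℤ :=
  (omTerms.map (fun t => t.1 * sgnL [a.1, a.2, b.1, b.2, t.2.1, t.2.2.1, t.2.2.2.1, t.2.2.2.2])).sum

lemma pairCoeff_eq : ∀ a b : Fin 28, pairCoeff (pr a) (pr b) = Mm a b := by
  decide +kernel

lemma PM_eq : ∀ i b : Fin 28, ∑ a, Pm i a * Mm a b = Nm i b := by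
  decide +kernel

/-- target Gram matrix on Fin 28 -/
def Tm (i j : Fin 28) : ℤ :=
  if h : i.val < 8 ∧ j.val < 8 then CartanMatrix.E₈ ⟨i.val, h.1⟩ ⟨j.val, h.2⟩
  else if (8 ≤ i.val ∧ i.val + 10 = j.val) ∨ (8 ≤ j.val ∧ j.val + 10 = i.val) then 1 else 0

lemma NP_eq : ∀ i j : Fin 28, ∑ b, Nm i b * Pm j b = Tm i j := by
  decide +kernel

end Pool.Agent.H63.E8
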