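import Pool.Agent.H63.E8Data

/-!
The Gram matrix computation in the exterior algebra and the resulting basis.
-/

namespace Pool.Agent.H63.E8

open ExteriorAlgebra

variable {M : Type} [AddCommGroup M]

/-- the a-th standard element of the second exterior power -/
noncomputable def w (x : Fin 8 → M) (a : Fin 28) : ⋀[ℤ]^2 M :=
  exteriorPower.ιMulti ℤ 2 ![x (pr a).1, x (pr a).2]

lemma w_coe (x : Fin 8 → M) (a : Fin 28) :
    ((w x a : ⋀[ℤ]^2 M) : ExteriorAlgebra ℤ M) = mon x [(pr a).1, (pr a).2] := by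
  rw [w, exteriorPower.ιMulti_apply_coe, ιMulti_apply]
  simp [mon]

lemma w_mul (x : Fin 8 → M) (a b : Fin 28) :
    (w x a : ExteriorAlgebra ℤ M) * (w x b : ExteriorAlgebra ℤ M) * om x
      = Mm a b • ιMulti ℤ 8 x := by
  rw [w_coe, w_coe, om, ← pairCoeff_eq, pairCoeff, ← List.sum_map_mul_left]
  rw [← mon_append]
  generalize omTerms = L
  induction L with
  | nil => simp
  | cons t L ih =>
    simp only [List.map_cons, List.sum_cons, add_smul]
    rw [ih]
    congr 1
    rw [mul_smul_comm, ← mon_append, mul_smul]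
    congr 1
    exact mon_word x _ rfl

/-- the i-th new basis vector -/
noncomputable def u (x : Fin 8 → M) (i : Fin 28) : ⋀[ℤ]^2 M := ∑ a, Pm i a • w x a

lemma u_coe (x : Fin 8 → M) (i : Fin 28) :
    (u x i : ExteriorAlgebra ℤ M) = ∑ a, Pm i a • (w x a : ExteriorAlgebra ℤ M) := by
  simp [u]

lemma u_mul (x : Fin 8 → M) (i j : Fin 28) :
    (u x i : ExteriorAlgebra ℤ M) * (u x j : ExteriorAlgebra ℤ M) * om x
      = Tm i j • ιMulti ℤ 8 x := by
  rw [u_coe, u_coe, Finset.sum_mul_sum, Finset.sum_mul]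
  simp_rw [Finset.sum_mul]
  have h : ∀ a b : Fin 28, (Pm i a • (w x a : ExteriorAlgebra ℤ M)) *
      (Pm j b • (w x b : ExteriorAlgebra ℤ M)) * om x
        = (Pm i a * Mm a b * Pm j b) • ιMulti ℤ 8 x := by
    intro a b
    rw [smul_mul_assoc, mul_smul_comm, smul_mul_assoc, smul_mul_assoc, w_mul, smul_smul, smul_smul]
    congr 1
    ring
  simp_rw [h]
  rw [Finset.sum_comm]
  simp_rw [← Finset.sum_smul, ← Finset.sum_mul, PM_eq]
  rw [NP_eq]

lemma basis_univ (x : Module.Basis (Fin 8) ℤ M) :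
    x.ExteriorAlgebra Finset.univ = ιMulti ℤ 8 x := by
  have hc : (Finset.univ : Finset (Fin 8)).card = 8 := by simp
  rw [ExteriorAlgebra.basis_apply_ofCard _ hc, ExteriorAlgebra.ιMulti_family]
  congr 1
  funext k
  have h : (Set.powersetCard.ofFinEmbEquiv.symm (Set.powersetCard.ofCard hc)) k = k := by
    have h2 : (Set.powersetCard.ofFinEmbEquiv.symm (Set.powersetCard.ofCard hc)) =
        (Finset.univ : Finset (Fin 8)).orderEmbOfFin hc := by
      rw [Set.powersetCard.ofFinEmbEquiv_symm_apply]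
      rfl
    rw [h2]
    have h3 := Finset.orderEmbOfFin_unique (s := (Finset.univ : Finset (Fin 8))) hc
      (f := (id : Fin 8 → Fin 8)) (fun x => Finset.mem_univ x) strictMono_id
    exact (congrFun h3 k).symm
  rw [Function.comp_apply, h]

/-- evaluation functional in degree 8 -/
noncomputable def ev (x : Module.Basis (Fin 8) ℤ M) : ExteriorAlgebra ℤ M →ₗ[ℤ] ℤ :=
  x.ExteriorAlgebra.coord Finset.univ

lemma ev_vol (x : Module.Basis (Fin 8) ℤ M) : ev x (ιMulti ℤ 8 x) = 1 := by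
  rw [← basis_univ, ev]
  simp

/-- the inverse of the target Gram matrix -/
def Ti (i j : Fin 28) : ℤ :=
  if i.val < 8 ∧ j.val < 8 then (e8inv.getD i.val []).getD j.val 0
  else if (8 ≤ i.val ∧ i.val + 10 = j.val) ∨ (8 ≤ j.val ∧ j.val + 10 = i.val) then 1 else 0

lemma Ti_mul : ∀ i j : Fin 28, ∑ k, Ti i k * Tm j k = if i = j then 1 else 0 := by
  decide +kernel

variable (x : Module.Basis (Fin 8) ℤ M)

/-- the pairing with the new basis vectors -/
noncomputable def pairU : ⋀[ℤ]^2 M →ₗ[ℤ] (Fin 28 → ℤ) :=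
  LinearMap.pi fun k => ev x ∘ₗ (LinearMap.mulRight ℤ ((u x k : ExteriorAlgebra ℤ M) * om x))
    ∘ₗ (⋀[ℤ]^2 M).subtype

lemma pairU_u (i k : Fin 28) : pairU x (u x i) k = Tm i k := by
  simp only [pairU, LinearMap.pi_apply, LinearMap.comp_apply, LinearMap.mulRight_apply,
    Submodule.subtype_apply]
  rw [← mul_assoc, u_mul, map_smul, ev_vol, smul_eq_mul, mul_one]

/-- coordinates with respect to the new basis -/
noncomputable def coord : ⋀[ℤ]^2 M →ₗ[ℤ] (Fin 28 → ℤ) :=
  (Matrix.toLin' (Matrix.of Ti)) ∘ₗ pairU x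

lemma coord_u (j : Fin 28) : coord x (u x j) = Pi.single j 1 := by
  ext i
  simp only [coord, LinearMap.comp_apply, Matrix.toLin'_apply, Matrix.mulVec, dotProduct,
    Matrix.of_apply, pairU_u, Ti_mul]
  simp [Pi.single_apply]

/-- linear combinations of the new basis vectors -/
noncomputable def comb : (Fin 28 → ℤ) →ₗ[ℤ] ⋀[ℤ]^2 M :=
  Fintype.linearCombination ℤ (u x)

lemma coord_comb (c : Fin 28 → ℤ) : coord x (comb x c) = c := by
  simp only [comb, Fintype.linearCombination_apply, map_sum, map_smul, coord_u]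
  ext i
  simp [Finset.sum_apply, Pi.single_apply]

lemma coord_surjective : Function.Surjective (coord x) := fun c => ⟨comb x c, coord_comb x c⟩

include x in
lemma finrank_two : Module.finrank ℤ (⋀[ℤ]^2 M) = 28 := by
  have hf : Module.Free ℤ M := Module.Free.of_basis x
  have hf2 : Module.Finite ℤ M := Module.Finite.of_basis x
  rw [exteriorPower.finrank_eq, Module.finrank_eq_card_basis x]
  simp
  decide

lemma coord_injective : Function.Injective (coord x) := by
  have hf : Module.Free ℤ M := Module.Free.of_basis x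
  have hf2 : Module.Finite ℤ M := Module.Finite.of_basis x
  have h : Module.finrank ℤ (Fin 28 → ℤ) = Module.finrank ℤ (⋀[ℤ]^2 M) := by
    rw [finrank_two x]; simp
  let φ : (Fin 28 → ℤ) ≃ₗ[ℤ] ⋀[ℤ]^2 M := LinearEquiv.ofFinrankEq _ _ h
  have hs : Function.Surjective (coord x ∘ₗ φ.toLinearMap) := by
    rw [LinearMap.coe_comp]
    exact (coord_surjective x).comp φ.surjective
  have hi := OrzechProperty.injective_of_surjective_endomorphism _ hs
  intro y z hyz
  obtain ⟨a, rfl⟩ := φ.surjective y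
  obtain ⟨b, rfl⟩ := φ.surjective z
  have : a = b := hi hyz
  rw [this]

/-- the new basis -/
noncomputable def bas : Module.Basis (Fin 28) ℤ (⋀[ℤ]^2 M) :=
  Module.Basis.ofEquivFun (LinearEquiv.ofBijective (coord x)
    ⟨coord_injective x, coord_surjective x⟩)

lemma bas_apply (i : Fin 28) : bas x i = u x i := by
  apply coord_injective x
  rw [coord_u]
  have : (LinearEquiv.ofBijective (coord x) ⟨coord_injective x, coord_surjective x⟩) (bas x i)
      = Pi.single i 1 := by
    rw [bas, Module.Basis.coe_ofEquivFun]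
    exact LinearEquiv.apply_symm_apply _ _
  exact this

/-- reindexing -/
def idx : Fin 28 ≃ Fin 8 ⊕ (Fin 10 ⊕ Fin 10) :=
  (finSumFinEquiv.symm : Fin (8 + 20) ≃ _).trans
    (Equiv.sumCongr (Equiv.refl _) (finSumFinEquiv.symm : Fin (10 + 10) ≃ _))

lemma Tm_idx : ∀ i j : Fin 8 ⊕ (Fin 10 ⊕ Fin 10), Tm (idx.symm i) (idx.symm j) =
    (Matrix.fromBlocks CartanMatrix.E₈ 0 0 (Matrix.fromBlocks 0 1 1 0) :
      Matrix (Fin 8 ⊕ (Fin 10 ⊕ Fin 10)) (Fin 8 ⊕ (Fin 10 ⊕ Fin 10)) ℤ) i j := by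
  have h1 : ∀ i j : Fin 8, Tm (idx.symm (Sum.inl i)) (idx.symm (Sum.inl j)) =
      CartanMatrix.E₈ i j := by
    intro i j
    rw [Tm, dif_pos ⟨i.2, j.2⟩]
    rfl
  have h2 : ∀ (i : Fin 8) (j : Fin 10), Tm (idx.symm (Sum.inl i)) (idx.symm (Sum.inr (Sum.inl j))) =
      0 := by decide +kernel
  have h3 : ∀ (i : Fin 8) (j : Fin 10), Tm (idx.symm (Sum.inl i)) (idx.symm (Sum.inr (Sum.inr j))) =
      0 := by decide +kernel
  have h4 : ∀ (i : Fin 8) (j : Fin 10), Tm (idx.symm (Sum.inr (Sum.inl j))) (idx.symm (Sum.inl i)) =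
      0 := by decide +kernel
  have h5 : ∀ (i : Fin 8) (j : Fin 10), Tm (idx.symm (Sum.inr (Sum.inr j))) (idx.symm (Sum.inl i)) =
      0 := by decide +kernel
  have h6 : ∀ i j : Fin 10, Tm (idx.symm (Sum.inr (Sum.inl i))) (idx.symm (Sum.inr (Sum.inl j))) =
      0 := by decide +kernel
  have h7 : ∀ i j : Fin 10, Tm (idx.symm (Sum.inr (Sum.inr i))) (idx.symm (Sum.inr (Sum.inr j))) =
      0 := by decide +kernel
  have h8 : ∀ i j : Fin 10, Tm (idx.symm (Sum.inr (Sum.inl i))) (idx.symm (Sum.inr (Sum.inr j))) =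
      if i = j then 1 else 0 := by decide +kernel
  have h9 : ∀ i j : Fin 10, Tm (idx.symm (Sum.inr (Sum.inr i))) (idx.symm (Sum.inr (Sum.inl j))) =
      if i = j then 1 else 0 := by decide +kernel
  rintro (i | i | i) (j | j | j)
  · exact h1 i j
  · exact h2 i j
  · exact h3 i j
  · exact h4 j i
  · exact h6 i j
  · exact (h8 i j).trans (Matrix.one_apply).symm
  · exact h5 j i
  · exact (h9 i j).trans (Matrix.one_apply).symm
  · exact h7 i j

lemma om_mem (x : Fin 8 → M) : om x ∈ ⋀[ℤ]^4 M := by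
  rw [om]
  apply list_sum_mem
  intro y hy
  obtain ⟨t, -, rfl⟩ := List.mem_map.mp hy
  apply Submodule.smul_mem
  have : mon x [t.2.1, t.2.2.1, t.2.2.2.1, t.2.2.2.2] =
      ιMulti ℤ 4 ![x t.2.1, x t.2.2.1, x t.2.2.2.1, x t.2.2.2.2] := by
    rw [ιMulti_apply]
    simp [mon]
  rw [this]
  exact ιMulti_range ℤ 4 (Set.mem_range_self _)

end Pool.Agent.H63.E8
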